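import Pool.Agent.Q31.SN.Fin

set_option autoImplicit false

/-! Sharp constants for the even-order antiderivatives of the argument of the zeta function. -/

open Filter Topology

namespace Pool.Agent.Results.MP_155064_nt.SharpEvenAntiderivatives

/-- The path that runs from `2` to `2 + it` for `x ∈ [0,1]`, and from `2 + it` to `1/2 + it` for
`x ∈ [1,2]`. -/
noncomputable def path (t x : ℝ) : ℂ :=
  if x ≤ 1 then 2 + ((t * x : ℝ) : ℂ) * Complex.I
  else ((2 - 3 / 2 * (x - 1) : ℝ) : ℂ) + t * Complex.I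

/-- `θ` is the value of `arg ζ(1/2 + it)` obtained by continuous variation along the path from `2`,
starting with `arg ζ(2) = 0`. -/
def IsArg (t θ : ℝ) : Prop :=
  ∃ a : ℝ → ℝ, ContinuousOn a (Set.Icc 0 2) ∧ a 0 = 0 ∧ a 2 = θ ∧
    ∀ x ∈ Set.Icc (0 : ℝ) 2,
      riemannZeta (path t x) = ‖riemannZeta (path t x)‖ * Complex.exp (a x * Complex.I)

/-- `S(t)` for `t > 0` not an ordinate of a zero. -/
noncomputable def Sgen (t : ℝ) : ℝ := Classical.epsilon (IsArg t) / Real.pi

/-- `S(t)`; at an ordinate of a zero it is the average of the left and right limits. -/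
noncomputable def S (t : ℝ) : ℝ :=
  open Classical in
  if riemannZeta (1 / 2 + t * Complex.I) = 0 then
    (limUnder (𝓝[<] t) Sgen + limUnder (𝓝[>] t) Sgen) / 2
  else Sgen t

/-- `J 0 σ = log|ζ(σ)|` and `J (k+1) σ` is the integral of `J k` over `(σ, ∞)`. -/
noncomputable def J : ℕ → ℝ → ℝ
  | 0, σ => Real.log ‖riemannZeta σ‖
  | k + 1, σ => ∫ x : ℝ in Set.Ioi σ, J k x

/-- `δ_{2k} = (-1)^(k-1) / ((2k)! 2^(2k))` and `δ_{2k-1} = (-1)^(k-1)/π * J (2k-1) (1/2)`, the
latter being the iterated integral of `log|ζ|` over `1/2 < σ_{2k-2} < ... < σ_0`. -/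
noncomputable def delta (n : ℕ) : ℝ :=
  if Even n then (-1) ^ (n / 2 - 1) / ((n.factorial : ℝ) * 2 ^ n)
  else (-1) ^ ((n - 1) / 2) / Real.pi * J n (1 / 2)

/-- The antiderivatives `S_n`. -/
noncomputable def Sn : ℕ → ℝ → ℝ
  | 0, t => S t
  | n + 1, t => (∫ τ : ℝ in (0 : ℝ)..t, Sn n τ) + delta (n + 1)

/-- The maximum of the Bernoulli polynomial `B_k` over `[0,1]`. -/
noncomputable def maxB (k : ℕ) : ℝ := sSup ((fun x : ℝ => bernoulliFun k x) '' Set.Icc 0 1)

/-- The minimum of the Bernoulli polynomial `B_k` over `[0,1]`. -/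
noncomputable def minB (k : ℕ) : ℝ := sInf ((fun x : ℝ => bernoulliFun k x) '' Set.Icc 0 1)

/-- `A_n^-` -/
noncomputable def Aminus (n : ℕ) : ℝ :=
  Real.pi ^ n * maxB (n + 1) / (2 * ((n + 1).factorial : ℝ))

/-- `A_n^+` -/
noncomputable def Aplus (n : ℕ) : ℝ :=
  -(Real.pi ^ n * minB (n + 1)) / (2 * ((n + 1).factorial : ℝ))

/-- `Λ_n(t) = log t / (log log t)^(n+1)` -/
noncomputable def Lam (n : ℕ) (t : ℝ) : ℝ := Real.log t / Real.log (Real.log t) ^ (n + 1)

lemma J_eq (k : ℕ) : J k = Pool.Agent.Q31.SN.JJ k := by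
  induction k with
  | zero => rfl
  | succ k ih =>
    funext σ
    show ∫ x : ℝ in Set.Ioi σ, J k x = ∫ x : ℝ in Set.Ioi σ, Pool.Agent.Q31.SN.JJ k x
    rw [ih]

lemma delta_eq (n : ℕ) : delta n = Pool.Agent.Q31.SN.dl n := by
  unfold delta Pool.Agent.Q31.SN.dl
  rw [J_eq]

lemma Sn_eq (n : ℕ) : Sn n = Pool.Agent.Q31.SN.Sn n := by
  induction n with
  | zero => rfl
  | succ n ih =>
    funext t
    show (∫ τ : ℝ in (0 : ℝ)..t, Sn n τ) + delta (n + 1) =
      (∫ τ : ℝ in (0 : ℝ)..t, Pool.Agent.Q31.SN.Sn n τ) + Pool.Agent.Q31.SN.dl (n + 1)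
    rw [ih, delta_eq]

/-- **Q1 answered in the affirmative.** Under RH, with the constants `δ_n` that give every `S_n`
mean value zero, the bounds with the constants `A_n^±` hold for every even `n ≥ 2`. -/
theorem result (RH : RiemannHypothesis) :
    (∀ n : ℕ, Tendsto (fun T : ℝ => 1 / T * ∫ t : ℝ in (0 : ℝ)..T, Sn n t) atTop (𝓝 0)) ∧
    ∀ n : ℕ, Even n → 2 ≤ n → ∃ o : ℝ → ℝ, Tendsto o atTop (𝓝 0) ∧
      ∀ᶠ t : ℝ in atTop, -(Aminus n + o t) * Lam n t ≤ Sn n t ∧ Sn n t ≤ (Aplus n + o t) * Lam n t := by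
  refine ⟨fun n => ?_, fun n hn hn2 => ?_⟩
  · rw [Sn_eq]
    exact Pool.Agent.Q31.SN.mean_zero RH n
  · rw [Sn_eq]
    have key : ∀ ε : ℝ, 0 < ε → ∀ᶠ t : ℝ in atTop,
        -(Aminus n + ε) * Lam n t ≤ Pool.Agent.Q31.SN.Sn n t ∧
          Pool.Agent.Q31.SN.Sn n t ≤ (Aplus n + ε) * Lam n t :=
      fun ε hε => Pool.Agent.Q31.SN.main_eps RH hn hn2 hε
    set f := Pool.Agent.Q31.SN.Sn n with hf
    have hpos : ∀ᶠ t : ℝ in atTop, 0 < Lam n t := by
      filter_upwards [eventually_ge_atTop 3,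
        Pool.Agent.Q31.SN.loglog_tendsto.eventually_ge_atTop 1] with t ht hll
      have : 0 < Real.log t := Real.log_pos (by linarith)
      unfold Lam
      positivity
    refine ⟨fun t => max 0 (max (f t / Lam n t - Aplus n) (-(f t / Lam n t) - Aminus n)), ?_, ?_⟩
    · rw [Metric.tendsto_nhds]
      intro ε hε
      filter_upwards [key (ε / 2) (by linarith), hpos] with t ht hL
      rw [Real.dist_eq, sub_zero, abs_of_nonneg (le_max_left _ _)]
      have h1 : f t / Lam n t ≤ Aplus n + ε / 2 := by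
        rw [div_le_iff₀ hL]; exact ht.2
      have h2 : -(Aminus n + ε / 2) ≤ f t / Lam n t := by
        rw [le_div_iff₀ hL]; exact ht.1
      refine lt_of_le_of_lt (max_le (by linarith : (0 : ℝ) ≤ ε / 2) (max_le ?_ ?_)) (by linarith)
      · linarith
      · linarith
    · filter_upwards [hpos] with t hL
      set o := max 0 (max (f t / Lam n t - Aplus n) (-(f t / Lam n t) - Aminus n)) with ho
      have h1 : f t / Lam n t - Aplus n ≤ o := (le_max_left _ _).trans (le_max_right _ _)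
      have h2 : -(f t / Lam n t) - Aminus n ≤ o := (le_max_right _ _).trans (le_max_right _ _)
      constructor
      · rw [← le_div_iff₀ hL]; linarith
      · rw [← div_le_iff₀ hL]; linarith

end Pool.Agent.Results.MP_155064_nt.SharpEvenAntiderivatives
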